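import Pool.Agent.H28.RC.Targets3

set_option autoImplicit false

open NumberField

namespace Pool.Agent.H23.RC

open Pool.Agent.H28.RC

theorem pco_cop {R : Type} [CommRing R] (I J m : Ideal R) :
    I * J ⊔ m = ⊤ ↔ I ⊔ m = ⊤ ∧ J ⊔ m = ⊤ := by
  rw [← Ideal.isCoprime_iff_sup_eq, ← Ideal.isCoprime_iff_sup_eq, ← Ideal.isCoprime_iff_sup_eq]
  exact IsCoprime.mul_left_iff

theorem pf_PCO : T_PCO := by
  intro F _ _ m ψ h
  refine ⟨fun ψ' h' => ⟨h.ne, ?_, ?_, ?_, ?_, ?_, ?_⟩, fun m' hm hm0 => ⟨hm0, ?_, ?_, ?_, ?_, ?_, ?_⟩⟩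
  · simp [h.one, h'.one]
  · intro I J
    rw [h.mul, h'.mul, map_mul]
    ring
  · simp [h.bot]
  · intro I hI hIm
    rw [norm_mul, RCLike.norm_conj, h.norm I hI hIm, h'.norm I hI hIm, one_mul]
  · intro I hI
    rw [h.zero I hI, zero_mul]
  · intro a ha ha1 hp
    rw [h.ray a ha ha1 hp, h'.ray a ha ha1 hp, map_one, one_mul]
  · unfold rst
    rw [if_pos (top_sup_eq _), h.one]
  · intro I J
    unfold rst
    by_cases hI : I ⊔ m' = ⊤ <;> by_cases hJ : J ⊔ m' = ⊤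
    · rw [if_pos ((pco_cop I J m').2 ⟨hI, hJ⟩), if_pos hI, if_pos hJ, h.mul]
    · rw [if_neg (fun hh => hJ ((pco_cop I J m').1 hh).2), if_neg hJ, mul_zero]
    · rw [if_neg (fun hh => hI ((pco_cop I J m').1 hh).1), if_neg hI, zero_mul]
    · rw [if_neg (fun hh => hI ((pco_cop I J m').1 hh).1), if_neg hI, zero_mul]
  · unfold rst
    rw [h.bot, ite_self]
  · intro I hI hIm
    unfold rst
    rw [if_pos hIm]
    refine h.norm I hI (top_le_iff.1 ?_)
    rw [← hIm]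
    exact sup_le_sup_left hm I
  · intro I hI
    unfold rst
    rw [if_neg hI]
  · intro a ha ha1 hp
    have hc : Ideal.span {a} ⊔ m' = ⊤ := by
      rw [Ideal.eq_top_iff_one]
      have : (1 : 𝓞 F) = a - (a - 1) := by ring
      rw [this]
      exact Ideal.sub_mem _ (Ideal.mem_sup_left (Ideal.subset_span rfl)) (Ideal.mem_sup_right ha1)
    unfold rst
    rw [if_pos hc]
    exact h.ray a ha (hm ha1) hp

end Pool.Agent.H23.RC
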